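import Mathlib
import Pool.Agent.R738.ZCE.Scott

set_option autoImplicit false

/-!
# Core-free `ℤ`-coset equivalent subgroups need not be isomorphic
-/

namespace Pool.Agent.Results.MP_997916_al.CoreFreeNotIso

/-- The action of `g` on the permutation module `ℤ[G/H]`, the free `ℤ`-module on the left cosets
`G/H`: the basis element of a coset `c` is mapped to the basis element of `g • c`. -/
noncomputable def act {G : Type} [Group G] {H : Subgroup G} (g : G) (x : (G ⧸ H) →₀ ℤ) :
    (G ⧸ H) →₀ ℤ :=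
  Finsupp.mapDomain (fun c : G ⧸ H => g • c) x

/-- `G₁` and `G₂` are `ℤ`-coset equivalent: `ℤ[G/G₁]` and `ℤ[G/G₂]` are isomorphic as
`ℤ[G]`-modules, i.e. there is a `ℤ`-linear bijection that commutes with the action of `G`. -/
def CosetEquivalent {G : Type} [Group G] (G₁ G₂ : Subgroup G) : Prop :=
  ∃ e : ((G ⧸ G₁) →₀ ℤ) ≃ₗ[ℤ] ((G ⧸ G₂) →₀ ℤ), ∀ (g : G) (x : (G ⧸ G₁) →₀ ℤ),
    e (act g x) = act g (e x)

/-- `H` is core-free in `G`: the only normal subgroup of `G` contained in `H` is the trivial one. -/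
def CoreFree {G : Type} [Group G] (H : Subgroup G) : Prop :=
  ∀ N : Subgroup G, N.Normal → N ≤ H → N = ⊥

/-- **Theorem.** There are a finite group `G` and two core-free subgroups `G₁`, `G₂` of `G` which
are `ℤ`-coset equivalent and not isomorphic. -/
theorem result : ∃ (G : Type) (_ : Group G) (_ : Finite G) (G₁ G₂ : Subgroup G),
    CoreFree G₁ ∧ CoreFree G₂ ∧ CosetEquivalent G₁ G₂ ∧ ¬ Nonempty (G₁ ≃* G₂) := by
  obtain ⟨G, hG, hfin, G₁, G₂, h1, h2, h3, h4⟩ := Pool.Agent.R738.ZCE.scott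
  refine ⟨G, hG, hfin, G₁, G₂, ?_, ?_, h3, h4⟩
  · intro N hN hle
    rw [eq_bot_iff, ← h1]
    exact Subgroup.normal_le_normalCore.mpr hle
  · intro N hN hle
    rw [eq_bot_iff, ← h2]
    exact Subgroup.normal_le_normalCore.mpr hle

end Pool.Agent.Results.MP_997916_al.CoreFreeNotIso
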